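import Pool.Agent.StarIB.Final2
import Pool.Agent.StarKP.RIReal

/-!
# MP_f3a9fd_gt: star bodies which are dilatates of their iterated intersection body of order `i`

For `n ≥ 3`, every real `i` with `max(1, n - 2) < i < n - 1` and every integer `2 ≤ i ≤ n - 2`, the
star bodies `L` for which `I_i² L` is a dilatate of `L` (or which are centered and for which
`I_i² L` is homothetic to `L`) are exactly the centered balls.
-/

namespace Pool.Agent.Results.MP_f3a9fd_gt.IteratedOrderReal

open StarIB Metric

theorem result (n : ℕ) (i : ℝ) (hi : 1 < i) (hin : i < (n : ℝ) - 1)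
    (hcase : (n : ℝ) - 2 < i ∨ ∃ m : ℕ, (m : ℝ) = i)
    (L : Set (EuclideanSpace ℝ (Fin n))) (hL : IsStarBody L) :
    (∃ (x : EuclideanSpace ℝ (Fin n)) (r : ℝ), 0 < r ∧ (x = 0 ∨ ∀ y ∈ L, -y ∈ L) ∧
      interBody i (interBody i L) = (fun y => x + r • y) '' L) ↔
    ∃ a : ℝ, 0 ≤ a ∧ L = closedBall (0 : EuclideanSpace ℝ (Fin n)) a := by
  have hn : 3 ≤ n := by
    by_contra hcon
    push Not at hcon
    have : (n : ℝ) ≤ 2 := by exact_mod_cast (by omega : n ≤ 2)
    linarith
  obtain ⟨d, rfl⟩ : ∃ d, n = d + 1 := ⟨n - 1, by omega⟩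
  have hid : i < d := by push_cast at hin; linarith
  have hRI : RI d (i + 1) := by
    rcases hcase with h3 | ⟨m, hm⟩
    · push_cast at h3
      exact StarKP.RI_real d (i + 1) (by linarith)
    · have := RI_nat d (m + 1)
      push_cast at this
      rwa [hm] at this
  exact main_E (by rw [finrank_euclideanSpace, Fintype.card_fin]) (by omega) hi hid hRI L hL

end Pool.Agent.Results.MP_f3a9fd_gt.IteratedOrderReal
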