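import Pool.Agent.StarTr.UFinal

/-!
# MP_f3a9fd_gt: all star bodies near the ball which are homothetic to their iterated intersection body

Let `n ≥ 3`, `1 < i < n - 1` real.  The star bodies `L` in a neighbourhood of the unit ball (for the Lipschitz
norm of the radial function; for convex `L` for the Hausdorff metric) with `I_i² L` homothetic to `L`
are, up to dilatation, exactly the members of a family `K y`, `y` in a ball around the origin, with
`I_i² (K y) = r (y + K y)`, one body for every `y`, and `K y` is neither centered nor a ball for `y ≠ 0`.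

Existence: `M = y + K y` is a centered body of revolution; its radial function `κ(⟨u, e⟩)` is a fixed point of
`κ ↦ C R((R c^i)^i)`, `R` the spherical Radon transform, `c` the radial function of `M - y`; Schauder fixed
point theorem in the class of all `κ` with mean `1` and `|κ(h) - κ(h')| ≤ a | |h|^p - |h'|^p |`, `a = |y|`, `p < 2`.
Uniqueness: the translation of star bodies close to the ball is an almost isometry for the `L²` distance of
radial functions, and `R` has norm `1/(n-1)` on the even functions of mean zero, so the map is a contraction in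
`L²` with constant close to `i²/(n-1)²`.
-/

open scoped RealInnerProductSpace

namespace Pool.Agent.Results.MP_f3a9fd_gt.LocalClassification

open StarIB Metric

theorem result (n : ℕ) (i : ℝ) (hi : 1 < i) (hin : i < (n : ℝ) - 1) :
    ∃ (ε δ : ℝ) (K : EuclideanSpace ℝ (Fin n) → Set (EuclideanSpace ℝ (Fin n))), 0 < ε ∧ 0 < δ ∧
      (∀ y : EuclideanSpace ℝ (Fin n), ‖y‖ < δ →
        IsStarBody (K y) ∧
        (∃ r : ℝ, 0 < r ∧ interBody i (interBody i (K y)) = (fun w => r • (y + w)) '' K y) ∧
        (∀ u : EuclideanSpace ℝ (Fin n), ‖u‖ = 1 → |radial (K y) u - 1| ≤ 2 * ‖y‖) ∧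
        (∀ u v : EuclideanSpace ℝ (Fin n), ‖u‖ = 1 → ‖v‖ = 1 →
          |radial (K y) u - radial (K y) v| ≤ 10 * ‖y‖ * ‖u - v‖) ∧
        (y ≠ 0 → (∃ w ∈ K y, -w ∉ K y) ∧
          ∀ (z : EuclideanSpace ℝ (Fin n)) (ρ : ℝ), K y ≠ closedBall z ρ) ∧
        (∀ T : EuclideanSpace ℝ (Fin n) ≃ₗᵢ[ℝ] EuclideanSpace ℝ (Fin n),
          K (T y) = T '' K y)) ∧
      (∀ L : Set (EuclideanSpace ℝ (Fin n)), IsStarBody L →
        (∀ u : EuclideanSpace ℝ (Fin n), ‖u‖ = 1 → |radial L u - 1| ≤ ε) →
        (Convex ℝ L ∨ ∀ u v : EuclideanSpace ℝ (Fin n), ‖u‖ = 1 → ‖v‖ = 1 →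
          |radial L u - radial L v| ≤ ε * ‖u - v‖) →
        ((∃ (z : EuclideanSpace ℝ (Fin n)) (r : ℝ), 0 < r ∧
          interBody i (interBody i L) = (fun w => z + r • w) '' L) ↔
        ∃! q : ℝ × EuclideanSpace ℝ (Fin n),
          0 < q.1 ∧ ‖q.2‖ < δ ∧ L = (fun w => q.1 • w) '' K q.2)) := by
  have hn : 3 ≤ n := by
    by_contra hcon
    push Not at hcon
    have : (n : ℝ) ≤ 2 := by exact_mod_cast (by omega : n ≤ 2)
    linarith
  obtain ⟨m, rfl⟩ : ∃ m, n = m + 1 := ⟨n - 1, by omega⟩
  have him : i < m := by push_cast at hin; linarith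
  have : NeZero m := ⟨by omega⟩
  exact StarTr.local_class (by omega) (by rw [finrank_euclideanSpace, Fintype.card_fin]) hi.le him

end Pool.Agent.Results.MP_f3a9fd_gt.LocalClassification
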