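import Pool.Agent.StarTr.VFinal

/-!
# MP_f3a9fd_gt: the classical case `i = n - 1` near the ball

Let `n ≥ 3`.  The star bodies `L` in a neighbourhood of the unit ball (for the Lipschitz norm of the radial
function; for convex `L` for the Hausdorff metric) with `I² L` homothetic to `L`, `I² L = z + r L`, are exactly the
centered ellipsoids.  In particular there are no genuine translations (`z = 0`), in contrast to the orders
`1 < i < n - 1`.

Idea: `M = r⁻¹ z + L` is centered, and by the equivariance of `I²` under linear maps `M` can be assumed to be in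
isotropic position.  Then the component of degree two of `k - 1` (`k` the radial function of `M`) is of higher order,
the spherical Radon transform has norm less than `1/(n-1)²`-critical on the complement of the quadratic forms, and the
translation of the ball by `y` contributes `((n-1)/2) (⟨y,u⟩² - |y|²/n)` in degree two, which nothing compensates.
-/

open scoped RealInnerProductSpace

namespace Pool.Agent.Results.MP_f3a9fd_gt.LocalEllipsoids

open StarIB Metric

theorem result (n : ℕ) (hn : 3 ≤ n) :
    ∃ ε : ℝ, 0 < ε ∧ ∀ L : Set (EuclideanSpace ℝ (Fin n)), IsStarBody L →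
      (∀ u : EuclideanSpace ℝ (Fin n), ‖u‖ = 1 → |radial L u - 1| ≤ ε) →
      (Convex ℝ L ∨ ∀ u v : EuclideanSpace ℝ (Fin n), ‖u‖ = 1 → ‖v‖ = 1 →
        |radial L u - radial L v| ≤ ε * ‖u - v‖) →
      ((∃ (z : EuclideanSpace ℝ (Fin n)) (r : ℝ), 0 < r ∧
        interBody ((n : ℝ) - 1) (interBody ((n : ℝ) - 1) L) = (fun w => z + r • w) '' L) ↔
      ∃ A : EuclideanSpace ℝ (Fin n) ≃L[ℝ] EuclideanSpace ℝ (Fin n),
        L = A '' closedBall (0 : EuclideanSpace ℝ (Fin n)) 1) := by
  obtain ⟨m, rfl⟩ : ∃ m, n = m + 1 := ⟨n - 1, by omega⟩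
  have : NeZero m := ⟨by omega⟩
  have h1 : (((m + 1 : ℕ) : ℝ) - 1) = (m : ℝ) := by push_cast; ring
  rw [h1]
  exact StarTr.local_ell (by omega) (by rw [finrank_euclideanSpace, Fintype.card_fin])

end Pool.Agent.Results.MP_f3a9fd_gt.LocalEllipsoids
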