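import Pool.Agent.StarMM.Final

/-!
# MP_f3a9fd_gt: star bodies which are dilatates of `I_i² L`, all real orders `1 < i ≤ n/2`

For `n ≥ 3` and every real `i` with `1 < i ≤ n/2`, the star bodies `L` for which `I_i² L` is a
dilatate of `L` (or which are centered and for which `I_i² L` is homothetic to `L`) are exactly the
centered balls.
-/

namespace Pool.Agent.Results.MP_f3a9fd_gt.SmallOrders

open StarIB Metric

theorem result (n : ℕ) (hn : 3 ≤ n) (i : ℝ) (hi : 1 < i) (hin : i ≤ (n : ℝ) / 2)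
    (L : Set (EuclideanSpace ℝ (Fin n))) (hL : IsStarBody L) :
    (∃ (x : EuclideanSpace ℝ (Fin n)) (r : ℝ), 0 < r ∧ (x = 0 ∨ ∀ y ∈ L, -y ∈ L) ∧
      interBody i (interBody i L) = (fun y => x + r • y) '' L) ↔
    ∃ a : ℝ, 0 ≤ a ∧ L = closedBall (0 : EuclideanSpace ℝ (Fin n)) a := by
  obtain ⟨d, rfl⟩ : ∃ d, n = d + 1 := ⟨n - 1, by omega⟩
  push_cast at hin
  exact StarMM.main_M (by rw [finrank_euclideanSpace, Fintype.card_fin]) (by omega) hi hin L hL

end Pool.Agent.Results.MP_f3a9fd_gt.SmallOrders
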